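import Mathlib
import Pool.Agent.H9038fc.Core

set_option autoImplicit false

namespace Pool.Agent.Results.MP_9038fc_co.Main

open Pool.Agent.H9038fc

/-- `T` is an `n`-tournament (`T u v` means `u → v`). -/
def IsTournament {n : ℕ} (T : Fin n → Fin n → Prop) : Prop :=
  (∀ u, ¬ T u u) ∧ ∀ u v, u ≠ v → ((T u v ∧ ¬ T v u) ∨ (T v u ∧ ¬ T u v))

/-- The set of (arc sets of) Hamiltonian circuits of `T`: for an ordering `v` of all vertices with
arcs `v i → v (i + 1)` cyclically (`finRotate n` is the cyclic shift `i ↦ i + 1` of `Fin n`), the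
circuit is the set of its arcs. -/
def hamCircuits {n : ℕ} (T : Fin n → Fin n → Prop) : Set (Set (Fin n × Fin n)) :=
  {A | ∃ v : Equiv.Perm (Fin n), (∀ i, T (v i) (v (finRotate n i))) ∧
    A = Set.range fun i => (v i, v (finRotate n i))}

/-- The number of distinct Hamiltonian circuits. -/
noncomputable def numHam {n : ℕ} (T : Fin n → Fin n → Prop) : ℕ := (hamCircuits T).ncard

/-- `h_o(n)`: the largest number of Hamiltonian circuits of an `n`-tournament. -/
noncomputable def ho (n : ℕ) : ℕ :=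
  sSup {k : ℕ | ∃ T : Fin n → Fin n → Prop, IsTournament T ∧ numHam T = k}

/-- The statement asked about in Q1. -/
def AllValuesRealised : Prop :=
  ∀ n : ℕ, 1 ≤ n → ∀ h : ℕ, h ≤ ho n → ∃ T : Fin n → Fin n → Prop, IsTournament T ∧ numHam T = h

theorem numHam_eq (T : Fin 7 → Fin 7 → Prop) : numHam T = N T := by
  have hrot : ∀ i : Fin 7, finRotate 7 i = i + 1 := fun i => finRotate_succ_apply i
  have himg : hamCircuits T =
      (fun v : Equiv.Perm (Fin 7) => (Set.range fun i => (v i, v (i + 1)) : Set (Fin 7 × Fin 7))) ''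
        {v : Equiv.Perm (Fin 7) | v 0 = 0 ∧ ∀ i, T (v i) (v (i + 1))} := by
    ext A
    unfold hamCircuits
    simp only [Set.mem_image, Set.mem_ofPred_eq, hrot]
    constructor
    · rintro ⟨v, hv, rfl⟩
      refine ⟨v * (Equiv.addRight (v.symm 0)), ⟨by simp, ?_⟩, ?_⟩
      · intro i
        have := hv (i + v.symm 0)
        simp only [Equiv.Perm.mul_apply, Equiv.coe_addRight]
        rwa [show i + 1 + v.symm 0 = i + v.symm 0 + 1 by abel]
      · ext p
        simp only [Set.mem_range, Equiv.Perm.mul_apply, Equiv.coe_addRight]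
        constructor
        · rintro ⟨i, rfl⟩
          exact ⟨i + v.symm 0, by rw [show i + 1 + v.symm 0 = i + v.symm 0 + 1 by abel]⟩
        · rintro ⟨i, rfl⟩
          refine ⟨i - v.symm 0, ?_⟩
          rw [show i - v.symm 0 + 1 + v.symm 0 = i + 1 by abel, sub_add_cancel]
    · rintro ⟨v, ⟨_, hv⟩, rfl⟩
      exact ⟨v, hv, rfl⟩
  unfold numHam N
  rw [himg, Set.ncard_image_of_injOn]
  intro v hv w hw hvw
  have hv0 : v 0 = 0 := hv.1
  have hw0 : w 0 = 0 := hw.1
  have hvw' : (Set.range fun i => (v i, v (i + 1)) : Set (Fin 7 × Fin 7)) =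
    Set.range fun i => (w i, w (i + 1)) := hvw
  have hstep : ∀ i : Fin 7, v i = w i → v (i + 1) = w (i + 1) := by
    intro i hi
    have h1 : (v i, v (i + 1)) ∈ (Set.range fun i => (w i, w (i + 1)) : Set (Fin 7 × Fin 7)) := by
      rw [← hvw']; exact ⟨i, rfl⟩
    obtain ⟨j, hj⟩ := h1
    have hj1 : w j = v i := congrArg Prod.fst hj
    have hj2 : w (j + 1) = v (i + 1) := congrArg Prod.snd hj
    have hji : j = i := w.injective (hj1.trans hi)
    rw [← hj2, hji]
  have h0 : v 0 = w 0 := hv0.trans hw0.symm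
  have h1 := hstep 0 h0
  have h2 := hstep 1 h1
  have h3 := hstep 2 h2
  have h4 := hstep 3 h3
  have h5 := hstep 4 h4
  have h6 := hstep 5 h5
  refine Equiv.ext fun i => ?_
  fin_cases i
  · exact h0
  · exact h1
  · exact h2
  · exact h3
  · exact h4
  · exact h5
  · exact h6

theorem values7 (T : Fin 7 → Fin 7 → Prop) (hT : IsTournament T) :
    numHam T ≤ 24 ∧ numHam T ∉ ({16, 18, 19, 20, 21, 22, 23} : Set ℕ) := by
  obtain ⟨h1, h2⟩ := values T hT.1 hT.2
  rw [← numHam_eq] at h1 h2
  unfold hs at h2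
  simp only [List.mem_cons, List.not_mem_nil, or_false, not_or] at h2
  refine ⟨by omega, ?_⟩
  simp only [Set.mem_insert_iff, Set.mem_singleton_iff, not_or]
  omega

/-- The answer to Q1 is negative: for `n = 7` one has `h_o(7) = 24`, but no 7-tournament has
exactly 16, 18, 19, 20, 21, 22 or 23 Hamiltonian circuits. -/
theorem result : ¬ AllValuesRealised ∧ ho 7 = 24 ∧
    ∀ T : Fin 7 → Fin 7 → Prop, IsTournament T →
      numHam T ∉ ({16, 18, 19, 20, 21, 22, 23} : Set ℕ) := by
  have hQR : IsTournament QR := ⟨QR_irr, QR_xor⟩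
  have hho : ho 7 = 24 := by
    unfold ho
    apply le_antisymm
    · refine csSup_le ?_ ?_
      · exact ⟨24, QR, hQR, by rw [numHam_eq, N_QR]⟩
      rintro k ⟨T, hT, rfl⟩
      exact (values7 T hT).1
    · apply le_csSup
      · refine ⟨24, ?_⟩
        rintro k ⟨T, hT, rfl⟩
        exact (values7 T hT).1
      · exact ⟨QR, hQR, by rw [numHam_eq, N_QR]⟩
  refine ⟨?_, hho, fun T hT => (values7 T hT).2⟩
  intro hall
  obtain ⟨T, hT, h23⟩ := hall 7 (by norm_num) 23 (by rw [hho]; norm_num)
  apply (values7 T hT).2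
  rw [h23]
  simp

end Pool.Agent.Results.MP_9038fc_co.Main
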